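import Pool.Agent.H.MP_67b4ec_an.Defs

namespace Pool.Agent.H.MP_67b4ec_an
open Filter Topology

abbrev D1 : Type := StrongDual ℂ L1
abbrev D2 : Type := StrongDual ℂ D1

theorem dl_norm (n : ℤ) : ‖dl n‖ = 1 := by
  rw [dl, lp.norm_single (by norm_num), norm_one]

theorem ev_le (μ : D1) (n : ℤ) : ‖μ (dl n)‖ ≤ ‖μ‖ := by
  simpa [dl_norm] using μ.le_opNorm (dl n)

theorem norm_le_of (μ : D1) {C : ℝ} (h : ∀ n, ‖μ (dl n)‖ ≤ C) : ‖μ‖ ≤ C := by
  refine μ.opNorm_le_bound ((norm_nonneg _).trans (h 0)) fun a => ?_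
  have h1 := (lp.hasSum_single (by norm_num) a).mapL μ
  have h2 : ∀ n, ‖μ (lp.single 1 n (a n))‖ ≤ C * ‖a n‖ := fun n => by
    have : (lp.single 1 n (a n) : L1) = a n • dl n := by
      rw [dl, ← lp.single_smul, smul_eq_mul, mul_one]
    rw [this, map_smul, norm_smul, mul_comm]
    exact mul_le_mul_of_nonneg_right (h n) (norm_nonneg _)
  rw [L1_norm a, ← tsum_mul_left]
  exact h1.norm_le_of_bounded ((L1_summable a).mul_left C).hasSum h2

theorem of_summ (f : ℤ → ℂ) (hf : ∀ n, ‖f n‖ ≤ 1) (a : L1) : Summable fun n => ‖a n * f n‖ :=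
  (L1_summable a).of_nonneg_of_le (fun _ => norm_nonneg _) fun n => by
    rw [norm_mul]; exact mul_le_of_le_one_right (norm_nonneg _) (hf n)

theorem exists_fun (f : ℤ → ℂ) (hf : ∀ n, ‖f n‖ ≤ 1) : ∃ μ : D1, ∀ n, μ (dl n) = f n := by
  refine ⟨LinearMap.mkContinuous
    { toFun := fun a => ∑' n, a n * f n
      map_add' := fun a b => by
        simp only [lp.coeFn_add, Pi.add_apply, add_mul]
        exact (of_summ f hf a).of_norm.tsum_add (of_summ f hf b).of_norm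
      map_smul' := fun c a => by
        simp only [lp.coeFn_smul, Pi.smul_apply, smul_eq_mul, mul_assoc, tsum_mul_left,
          RingHom.id_apply] } 1 fun a => ?_, fun n => ?_⟩
  · rw [one_mul, L1_norm a]
    refine (norm_tsum_le_tsum_norm (of_summ f hf a)).trans
      ((of_summ f hf a).tsum_le_tsum (fun n => ?_) (L1_summable a))
    rw [norm_mul]; exact mul_le_of_le_one_right (norm_nonneg _) (hf n)
  · show ∑' m, dl n m * f m = f n
    rw [tsum_eq_single n fun j hj => by simp [dl, lp.single_apply, hj]]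
    simp [dl]

noncomputable def tau (n : ℤ) : D1 →L[ℂ] D1 := dotA.flip (dl n)

theorem tau_ev (n m : ℤ) (μ : D1) : tau n μ (dl m) = μ (dl (n + m)) := by
  show μ (conv (dl n) (dl m)) = _
  rw [conv_dl]

theorem tau_norm (n : ℤ) (μ : D1) : ‖tau n μ‖ ≤ ‖μ‖ :=
  norm_le_of _ fun m => by rw [tau_ev]; exact ev_le _ _

theorem tau_comm (a b : ℤ) (μ : D1) : tau a (tau b μ) = tau b (tau a μ) :=
  L1_ext fun n => by simp only [tau_ev, add_left_comm]

theorem dotB_ev (Ψ : D2) (μ : D1) (n : ℤ) : dotB Ψ μ (dl n) = Ψ (tau n μ) := rfl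

theorem tau_dotB (Ψ : D2) (μ : D1) (n : ℤ) : tau n (dotB Ψ μ) = dotB Ψ (tau n μ) :=
  (dotB_dotA Ψ μ (dl n)).symm

theorem tau_sub_norm (n : ℤ) (μ : D1) : ‖tau n μ - μ‖ ≤ 2 * ‖μ‖ :=
  (norm_sub_le _ _).trans (by linarith [tau_norm n μ])

def W (d : ℕ → ℤ) (μ : D1) : Prop := Tendsto (fun i => tau (d i) μ - μ) atTop (𝓝 0)

theorem rad_of (d : ℕ → ℤ) (X : D2) (h1 : ∀ μ, W d (dotB X μ)) (h2 : ∀ μ, W d μ → X μ = 0) :
    (show Bidual from X) ∈ Ring.jacobson Bidual := by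
  have h3 : ∀ Ψ : D2, arens X (arens Ψ X) = 0 := fun Ψ => by
    refine ContinuousLinearMap.ext fun μ => ?_
    rw [← arens_assoc, arens_apply, arens_apply]
    refine h2 _ ?_
    have := ((dotB Ψ).continuous.tendsto 0).comp (h1 μ)
    rw [map_zero] at this
    refine this.congr fun i => ?_
    simp only [Function.comp_apply, map_sub, tau_dotB]
  have h4 : ∀ y : Bidual, (show Bidual from X) * (y * (show Bidual from X)) = 0 := h3
  generalize (show Bidual from X) = x at h4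
  rw [← Ideal.jacobson_bot, Ideal.mem_jacobson_iff]
  intro y
  refine ⟨1 - y * x, ?_⟩
  have : (1 - y * x) * y * x + (1 - y * x) - 1 = -(y * (x * (y * x))) := by noncomm_ring
  rw [this, h4]; simp

theorem ulim (φ : ℕ → D2) (C : ℝ) (h : ∀ j μ, ‖φ j μ‖ ≤ C * ‖μ‖) :
    ∃ X : D2, ∀ μ, Tendsto (fun j => φ j μ) (hyperfilter ℕ) (𝓝 (X μ)) := by
  have h1 : ∀ μ : D1, ∃ z, Tendsto (fun j => φ j μ) (hyperfilter ℕ) (𝓝 z) := fun μ => by
    obtain ⟨z, -, hz⟩ := (isCompact_closedBall (0:ℂ) (C * ‖μ‖)).ultrafilter_le_nhds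
      ((hyperfilter ℕ).map fun j => φ j μ) (by
        rw [Ultrafilter.coe_map, le_principal_iff, mem_map]
        exact Eventually.of_forall fun j => mem_closedBall_zero_iff.2 (h j μ))
    exact ⟨z, hz⟩
  choose L hL using h1
  exact ⟨LinearMap.mkContinuous
    { toFun := L
      map_add' := fun a b => tendsto_nhds_unique (hL (a + b))
        (((hL a).add (hL b)).congr fun j => (map_add _ _ _).symm)
      map_smul' := fun c a => tendsto_nhds_unique (hL (c • a))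
        (((hL a).const_smul c).congr fun j => (map_smul _ _ _).symm) } C
    fun μ => le_of_tendsto' (hL μ).norm fun j => h j μ, hL⟩

noncomputable def Av (R : ℕ) (a d : ℤ) : D1 →L[ℂ] D1 :=
  ((R + 1 : ℕ) : ℂ)⁻¹ • ∑ m ∈ Finset.range (R + 1), tau (a + m * d)

theorem Av_ev (R : ℕ) (a d : ℤ) (μ : D1) (s : ℤ) : Av R a d μ (dl s) =
    ((R + 1 : ℕ) : ℂ)⁻¹ * ∑ m ∈ Finset.range (R + 1), μ (dl (a + m * d + s)) := by
  simp only [Av, ContinuousLinearMap.smul_apply, ContinuousLinearMap.sum_apply, tau_ev,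
    smul_eq_mul]

theorem Av_val (R : ℕ) (a d : ℤ) (μ : D1) (s : ℤ) (c : ℂ)
    (h : ∀ m : ℕ, m ≤ R → μ (dl (a + m * d + s)) = c) : Av R a d μ (dl s) = c := by
  rw [Av_ev, Finset.sum_congr rfl fun m hm => h m (Nat.lt_succ_iff.1 (Finset.mem_range.1 hm))]
  have : ((R + 1 : ℕ) : ℂ) ≠ 0 := Nat.cast_ne_zero.2 (Nat.succ_ne_zero R)
  rw [Finset.sum_const, Finset.card_range, nsmul_eq_mul, ← mul_assoc, inv_mul_cancel₀ this, one_mul]

theorem Av_norm (R : ℕ) (a d : ℤ) (μ : D1) : ‖Av R a d μ‖ ≤ ‖μ‖ := by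
  refine norm_le_of _ fun s => ?_
  rw [Av_ev, norm_mul, norm_inv, Complex.norm_natCast]
  have h0 : (0:ℝ) < (R + 1 : ℕ) := Nat.cast_pos.2 (Nat.succ_pos R)
  rw [inv_mul_le_iff₀ h0]
  refine (norm_sum_le _ _).trans ((Finset.sum_le_card_nsmul _ _ ‖μ‖ fun m _ => ev_le _ _).trans ?_)
  rw [Finset.card_range, nsmul_eq_mul]

theorem Av_tau (R : ℕ) (a d n : ℤ) (μ : D1) : Av R a d (tau n μ) = tau n (Av R a d μ) :=
  L1_ext fun s => by
    simp only [Av_ev, tau_ev]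
    congr 1
    exact Finset.sum_congr rfl fun m _ => by congr 2; ring

theorem Av_inv (R : ℕ) (a d : ℤ) (μ : D1) :
    ‖Av R a d (tau d μ - μ)‖ ≤ 2 / (R + 1 : ℕ) * ‖μ‖ := by
  refine norm_le_of _ fun s => ?_
  have e : ∑ m ∈ Finset.range (R + 1), (tau d μ - μ) (dl (a + m * d + s)) =
      μ (dl (a + (R + 1 : ℕ) * d + s)) - μ (dl (a + (0:ℕ) * d + s)) := by
    rw [← Finset.sum_range_sub (fun m : ℕ => μ (dl (a + m * d + s)))]
    refine Finset.sum_congr rfl fun m _ => ?_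
    rw [ContinuousLinearMap.sub_apply, tau_ev]
    congr 3; push_cast; ring
  rw [Av_ev, e, norm_mul, norm_inv, Complex.norm_natCast, div_eq_mul_inv, mul_comm 2, mul_assoc]
  refine mul_le_mul_of_nonneg_left ((norm_sub_le _ _).trans ?_) (by positivity)
  linarith [ev_le μ (a + (R + 1 : ℕ) * d + s), ev_le μ (a + (0:ℕ) * d + s)]

theorem lim_inv (C : ℝ) : Tendsto (fun i : ℕ => 2 / ((i + 1 : ℕ) : ℝ) * C) atTop (𝓝 0) := by
  have := ((tendsto_const_div_atTop_nhds_zero_nat (2:ℝ)).comp (tendsto_add_atTop_nat 1)).mul_const C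
  rw [zero_mul] at this
  exact this

end Pool.Agent.H.MP_67b4ec_an
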