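import Pool.Agent.H.MP_67b4ec_an.A

namespace Pool.Agent.H.MP_67b4ec_an
open Filter Topology

def dd : ℕ → ℤ
  | 0 => 1
  | k + 1 => (3 * k + 9) * dd k

theorem dd_pos : ∀ k, 1 ≤ dd k
  | 0 => le_rfl
  | k + 1 => by
    have := dd_pos k
    have h : (0:ℤ) ≤ k := Int.natCast_nonneg k
    rw [dd]; nlinarith

theorem dd_mono : Monotone dd := monotone_nat_of_le_succ fun k => by
  have := dd_pos k
  have h : (0:ℤ) ≤ k := Int.natCast_nonneg k
  rw [dd]; nlinarith

theorem dd_dvd {i j : ℕ} (h : i ≤ j) : dd i ∣ dd j := by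
  induction j, h using Nat.le_induction with
  | base => exact dvd_rfl
  | succ j _ ih => rw [dd]; exact ih.mul_left _

noncomputable def Y : ℕ → D1 →L[ℂ] D1
  | 0 => ContinuousLinearMap.id ℂ D1
  | j + 1 => (Y j).comp (Av j (2 * dd j) (dd j))

def S : ℕ → ℤ → Prop
  | 0, s => s = 0
  | j + 1, s => ∃ (s' : ℤ) (m : ℕ), S j s' ∧ m ≤ j ∧ s = 2 * dd j + m * dd j + s'

theorem Y_val (c : ℂ) : ∀ (j : ℕ) (μ : D1), (∀ s, S j s → μ (dl s) = c) → Y j μ (dl 0) = c
  | 0, _, h => h 0 rfl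
  | j + 1, μ, h => Y_val c j _ fun s hs => Av_val _ _ _ μ s c fun m hm => h _ ⟨s, m, hs, hm, rfl⟩

theorem Y_norm : ∀ (j : ℕ) (μ : D1), ‖Y j μ‖ ≤ ‖μ‖
  | 0, _ => le_rfl
  | j + 1, μ => (Y_norm j _).trans (Av_norm _ _ _ μ)

theorem Y_inv {i j : ℕ} (h : i + 1 ≤ j) (μ : D1) :
    ‖Y j (tau (dd i) μ - μ)‖ ≤ 2 / (i + 1 : ℕ) * ‖μ‖ := by
  induction j, h using Nat.le_induction generalizing μ with
  | base => exact (Y_norm i _).trans (Av_inv _ _ _ μ)
  | succ j _ ih =>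
    show ‖Y j (Av j (2 * dd j) (dd j) (tau (dd i) μ - μ))‖ ≤ _
    rw [map_sub (Av j (2 * dd j) (dd j)), Av_tau]
    exact (ih _).trans (mul_le_mul_of_nonneg_left (Av_norm _ _ _ _) (by positivity))

theorem S_bd : ∀ (j : ℕ) (s : ℤ), S j s → 0 ≤ s ∧ s ≤ dd j
  | 0, s, h => by rw [show s = 0 from h]; exact ⟨le_rfl, zero_le_one⟩
  | j + 1, s, ⟨s', m, h1, h2, h3⟩ => by
    obtain ⟨a, b⟩ := S_bd j s' h1
    have := dd_pos j
    have h : (0:ℤ) ≤ m := Int.natCast_nonneg m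
    have h' : (m:ℤ) ≤ j := Int.ofNat_le.2 h2
    rw [dd, h3]
    constructor <;> nlinarith

theorem S_bd' {j : ℕ} {s : ℤ} (h : S (j + 1) s) : 2 * dd j ≤ s ∧ s ≤ (j + 3) * dd j := by
  obtain ⟨s', m, h1, h2, h3⟩ := h
  obtain ⟨a, b⟩ := S_bd j s' h1
  have := dd_pos j
  have h : (0:ℤ) ≤ m := Int.natCast_nonneg m
  have h' : (m:ℤ) ≤ j := Int.ofNat_le.2 h2
  rw [h3]
  constructor <;> nlinarith

theorem S_mod (i : ℕ) : ∀ (j : ℕ) (s : ℤ), S j s →
    ∃ r q, s = r + dd (i + 1) * q ∧ 0 ≤ r ∧ r ≤ (i + 3) * dd i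
  | 0, s, h => ⟨0, 0, by rw [show s = 0 from h]; simp, le_rfl, by have := dd_pos i; positivity⟩
  | j + 1, s, h => by
    rcases le_or_gt j i with hj | hj
    · refine ⟨s, 0, by simp, (S_bd _ _ h).1, (S_bd' h).2.trans ?_⟩
      have := dd_mono hj
      have := dd_pos j
      have h' : (j:ℤ) ≤ i := Int.ofNat_le.2 hj
      have h : (0:ℤ) ≤ j := Int.natCast_nonneg j
      nlinarith
    · obtain ⟨s', m, h1, h2, h3⟩ := h
      obtain ⟨r, q, a, b⟩ := S_mod i j s' h1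
      obtain ⟨u, hu⟩ := dd_dvd (Nat.succ_le_of_lt hj)
      exact ⟨r, q + (2 + m) * u, by rw [h3, a, hu]; ring, b⟩

def ee (i : ℕ) : ℤ := (i + 4) * dd i + 1

def Lg (i : ℕ) (t : ℤ) : Prop := ee i ≤ t % dd (i + 1)

def F (t : ℤ) : Prop :=
  (∃ k, Even k ∧ Lg k t ∧ ∀ i, k < i → ¬ Lg i t) ∧ ¬ ∃ j, dd j ≤ t ∧ t < 2 * dd j

theorem n_bd {k m : ℕ} (hm : m ≤ k) :
    0 ≤ ee k + m ∧ ee k + m + (k + 3) * dd k < dd (k + 1) := by
  have := dd_pos k
  have h : (0:ℤ) ≤ m := Int.natCast_nonneg m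
  have h' : (m:ℤ) ≤ k := Int.ofNat_le.2 hm
  rw [ee, dd]
  constructor <;> nlinarith

theorem mod_eq {i j : ℕ} {s n : ℤ} (hs : S j s) (h0 : 0 ≤ n)
    (h1 : n + (i + 3) * dd i < dd (i + 1)) :
    n ≤ (n + s) % dd (i + 1) ∧ (n + s) % dd (i + 1) ≤ n + (i + 3) * dd i := by
  obtain ⟨r, q, a, b, c⟩ := S_mod i j s hs
  rw [a, ← add_assoc, Int.add_mul_emod_self_left, Int.emod_eq_of_lt (by linarith) (by linarith)]
  constructor <;> linarith

theorem big {k m i : ℕ} (hm : m ≤ k) (hi : k < i) :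
    ee k + m ≤ dd i ∧ dd i + (i + 3) * dd i < dd (i + 1) := by
  obtain ⟨a, b⟩ := n_bd hm
  have := dd_pos k
  have := dd_pos i
  have := dd_mono (Nat.succ_le_of_lt hi)
  have h : (0:ℤ) ≤ k := Int.natCast_nonneg k
  have h : (0:ℤ) ≤ i := Int.natCast_nonneg i
  constructor
  · nlinarith
  · rw [dd]; nlinarith

theorem F_shift {k m j : ℕ} {s : ℤ} (hm : m ≤ k) (hj : k < j) (hs : S (j + 1) s) :
    ¬ F (ee k + m + (dd (j + 1) + s)) := fun h => h.2 ⟨j + 1, by
  linarith [(n_bd hm).1, (S_bd _ _ hs).1], by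
  linarith [(big hm hj).1, (big hm hj).2, (S_bd' hs).2]⟩

theorem F_iff {k m j : ℕ} {s : ℤ} (hm : m ≤ k) (hj : k < j) (hs : S (j + 1) s) :
    F (ee k + m + s) ↔ Even k := by
  have h1 : Lg k (ee k + m + s) := by
    have := (mod_eq hs (n_bd hm).1 (n_bd hm).2).1
    have h : (0:ℤ) ≤ m := Int.natCast_nonneg m
    unfold Lg; linarith
  have h2 : ∀ i, k < i → ¬ Lg i (ee k + m + s) := fun i hi h => by
    have := (mod_eq hs (n_bd hm).1 (i := i) (by linarith [(big hm hi).1, (big hm hi).2])).2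
    have := (big hm hi).1
    unfold Lg at h
    rw [ee] at h
    linarith
  constructor
  · rintro ⟨⟨k', a, b, c⟩, -⟩
    rcases lt_trichotomy k' k with h | h | h
    · exact absurd h1 (c k h)
    · exact h ▸ a
    · exact absurd b (h2 k' h)
  · refine fun h => ⟨⟨k, h, h1, h2⟩, ?_⟩
    rintro ⟨l, a, b⟩
    rcases le_or_gt l j with hl | hl
    · linarith [dd_mono hl, (n_bd hm).1, (S_bd' hs).1]
    · linarith [dd_mono (Nat.succ_le_of_lt hl), (big hm hj).1, (big hm hj).2, (S_bd' hs).2]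

noncomputable def ev0 : D2 := NormedSpace.inclusionInDoubleDual ℂ L1 (dl 0)

theorem ev0_apply (μ : D1) : ev0 μ = μ (dl 0) := rfl

theorem hyp : (hyperfilter ℕ : Filter ℕ) ≤ atTop := Nat.cofinite_eq_atTop ▸ hyperfilter_le_cofinite

theorem main : ∃ Φ Ψ : Bidual, Φ ∈ Ring.jacobson Bidual ∧ Ψ ∈ Ring.jacobson Bidual ∧
    Φ * Ψ ≠ 0 := by
  classical
  obtain ⟨X, hX⟩ := ulim (fun j => ev0.comp ((Y j).comp
    (tau (dd j) - ContinuousLinearMap.id ℂ D1))) 2 fun j μ =>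
      (ev_le _ 0).trans ((Y_norm j _).trans (tau_sub_norm _ μ))
  have hX : ∀ μ, Tendsto (fun j => Y j (tau (dd j) μ - μ) (dl 0)) (hyperfilter ℕ) (𝓝 (X μ)) := hX
  obtain ⟨D, hD⟩ := ulim (fun k => ev0.comp (Av (2 * k) (ee (2 * k)) 1 -
    Av (2 * k + 1) (ee (2 * k + 1)) 1)) 2 fun k μ => (ev_le _ 0).trans ((norm_sub_le _ _).trans
      ((add_le_add (Av_norm (2 * k) (ee (2 * k)) 1 μ)
        (Av_norm (2 * k + 1) (ee (2 * k + 1)) 1 μ)).trans_eq (two_mul _).symm))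
  have hD : ∀ μ, Tendsto (fun k => Av (2 * k) (ee (2 * k)) 1 μ (dl 0) -
    Av (2 * k + 1) (ee (2 * k + 1)) 1 μ (dl 0)) (hyperfilter ℕ) (𝓝 (D μ)) := hD
  refine ⟨D, X, rad_of (fun _ => 1) D (fun μ => ?_) (fun μ h => ?_),
    rad_of dd X (fun μ => ?_) (fun μ h => ?_), fun h => ?_⟩
  · have : tau 1 (dotB D μ) - dotB D μ = 0 := by
      rw [tau_dotB, ← map_sub]
      refine L1_ext fun n => ?_
      rw [dotB_ev, map_sub (tau n), tau_comm]
      refine tendsto_nhds_unique (hD _) (Tendsto.mono_left ?_ hyp)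
      have h1 : ∀ R : ℕ → ℕ, Tendsto R atTop atTop → ∀ a : ℕ → ℤ, Tendsto
          (fun k => Av (R k) (a k) 1 (tau 1 (tau n μ) - tau n μ) (dl 0)) atTop (𝓝 0) :=
        fun R hR a => squeeze_zero_norm (fun k => (ev_le _ 0).trans (Av_inv _ _ _ _))
          ((lim_inv _).comp hR)
      have := (h1 (fun k => 2 * k) (tendsto_id.const_mul_atTop' two_pos) fun k => ee (2 * k)).sub
        (h1 (fun k => 2 * k + 1) (tendsto_atTop_mono (fun k => by simp; omega) tendsto_id)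
          fun k => ee (2 * k + 1))
      simpa using this
    unfold W
    simp only [this]
    exact tendsto_const_nhds
  · have h1 : tau 1 μ - μ = 0 := tendsto_nhds_unique tendsto_const_nhds h
    have h2 : ∀ n, μ (dl (n + 1)) = μ (dl n) := fun n => by
      rw [add_comm, ← tau_ev, sub_eq_zero.1 h1]
    have h3 : ∀ n, μ (dl n) = μ (dl 0) := fun n => by
      induction n using Int.induction_on with
      | zero => rfl
      | succ n ih => rw [h2, ih]
      | pred n ih => rw [← h2, sub_add_cancel, ih]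
    refine tendsto_nhds_unique (hD μ) ?_
    simp only [Av_val _ _ _ μ 0 _ fun _ _ => h3 _, sub_self]
    exact tendsto_const_nhds
  · refine squeeze_zero_norm (fun i => norm_le_of _ fun n => ?_) (lim_inv (2 * ‖μ‖))
    rw [tau_dotB, ← map_sub, dotB_ev]
    refine le_of_tendsto (hX _).norm (hyp ((eventually_ge_atTop (i + 1)).mono fun j hj => ?_))
    have e : tau (dd j) (tau n (tau (dd i) μ - μ)) - tau n (tau (dd i) μ - μ) =
        tau (dd i) (tau (dd j) (tau n μ) - tau n μ) - (tau (dd j) (tau n μ) - tau n μ) := by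
      simp only [map_sub, tau_comm (dd i)]
      abel
    rw [e]
    refine (ev_le _ 0).trans ((Y_inv hj _).trans (mul_le_mul_of_nonneg_left
      ((tau_sub_norm _ _).trans ?_) (by positivity)))
    linarith [tau_norm n μ]
  · refine tendsto_nhds_unique (hX μ) (Tendsto.mono_left ?_ hyp)
    exact squeeze_zero_norm (fun j => (ev_le _ 0).trans (Y_norm j _))
      (tendsto_zero_iff_norm_tendsto_zero.1 h)
  · obtain ⟨μ, hμ⟩ := exists_fun (fun t => if F t then 1 else 0) fun t => by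
      split_ifs <;> simp
    have h1 : ∀ k, Av k (ee k) 1 (dotB X μ) (dl 0) = if Even k then -1 else 0 := fun k => by
      refine Av_val _ _ _ _ _ _ fun m hm => ?_
      rw [dotB_ev, mul_one, add_zero]
      refine tendsto_nhds_unique (hX _) (tendsto_const_nhds.congr' (hyp ?_))
      filter_upwards [eventually_ge_atTop (k + 2)] with j hj
      obtain ⟨j, rfl⟩ : ∃ i, j = i + 1 := ⟨j - 1, by omega⟩
      refine (Y_val _ _ _ fun s hs => ?_).symm
      rw [ContinuousLinearMap.sub_apply, tau_ev, tau_ev, tau_ev, hμ, hμ,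
        if_neg (F_shift hm (by omega) hs), F_iff hm (by omega) hs]
      split_ifs <;> simp
    have h2 : D (dotB X μ) = 0 := congrArg (fun u : D2 => u μ) h
    have h3 := hD (dotB X μ)
    simp only [h1, even_two_mul, if_true, Nat.not_even_iff_odd.2 (odd_two_mul_add_one _), if_false,
      h2] at h3
    have := tendsto_nhds_unique h3 tendsto_const_nhds
    simp at this

end Pool.Agent.H.MP_67b4ec_an
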