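import Mathlib

namespace Pool.Agent.H.MP_67b4ec_an
open ContinuousLinearMap

abbrev L1 : Type := lp (fun _ : ℤ => ℂ) 1

theorem L1_summable (a : L1) : Summable fun n => ‖a n‖ := by
  simpa using (lp.memℓp a).summable (by norm_num)

theorem L1_norm (a : L1) : ‖a‖ = ∑' n, ‖a n‖ := by
  simpa using lp.norm_eq_tsum_rpow (by norm_num) a

def shear : ℤ × ℤ ≃ ℤ × ℤ :=
  ⟨fun p => (p.2, p.1 - p.2), fun p => (p.1 + p.2, p.1), fun p => by simp, fun p => by simp⟩

theorem conv_summable (a b : L1) : Summable fun p : ℤ × ℤ => ‖a p.2‖ * ‖b (p.1 - p.2)‖ :=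
  shear.summable_iff.2 ((L1_summable a).mul_of_nonneg (L1_summable b) (fun _ => norm_nonneg _)
    (fun _ => norm_nonneg _))

theorem conv_inner (a b : L1) (n : ℤ) : Summable fun m => a m * b (n - m) :=
  Summable.of_norm (by simpa using (conv_summable a b).prod_factor n)

theorem conv_le (a b : L1) (n : ℤ) :
    ‖∑' m, a m * b (n - m)‖ ≤ ∑' m, ‖a m‖ * ‖b (n - m)‖ := by
  simpa using norm_tsum_le_tsum_norm (conv_inner a b n).norm

theorem conv_mem (a b : L1) : Memℓp (fun n => ∑' m, a m * b (n - m)) 1 :=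
  memℓp_gen (by
    simpa using (conv_summable a b).prod.of_nonneg_of_le (fun _ => norm_nonneg _) (conv_le a b))

noncomputable def conv0 (a b : L1) : L1 := ⟨fun n => ∑' m, a m * b (n - m), conv_mem a b⟩

theorem conv0_apply (a b : L1) (n : ℤ) : conv0 a b n = ∑' m, a m * b (n - m) := rfl

theorem conv0_add_left (a a' b : L1) : conv0 (a + a') b = conv0 a b + conv0 a' b := by
  ext n
  simp only [conv0_apply, lp.coeFn_add, Pi.add_apply, add_mul]
  exact (conv_inner a b n).tsum_add (conv_inner a' b n)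

theorem conv0_add_right (a b b' : L1) : conv0 a (b + b') = conv0 a b + conv0 a b' := by
  ext n
  simp only [conv0_apply, lp.coeFn_add, Pi.add_apply, mul_add]
  exact (conv_inner a b n).tsum_add (conv_inner a b' n)

theorem conv0_smul_left (c : ℂ) (a b : L1) : conv0 (c • a) b = c • conv0 a b := by
  ext n
  simp only [conv0_apply, lp.coeFn_smul, Pi.smul_apply, smul_eq_mul, mul_assoc, tsum_mul_left]

theorem conv0_smul_right (c : ℂ) (a b : L1) : conv0 a (c • b) = c • conv0 a b := by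
  ext n
  simp only [conv0_apply, lp.coeFn_smul, Pi.smul_apply, smul_eq_mul, mul_left_comm _ c,
    tsum_mul_left]

theorem conv0_norm (a b : L1) : ‖conv0 a b‖ ≤ 1 * ‖a‖ * ‖b‖ := by
  have h1 : ∑' p : ℤ × ℤ, ‖a p.2‖ * ‖b (p.1 - p.2)‖ = ∑' n, ∑' m, ‖a m‖ * ‖b (n - m)‖ :=
    (conv_summable a b).tsum_prod
  have h2 : (∑' n, ‖a n‖) * ∑' n, ‖b n‖ = ∑' p : ℤ × ℤ, ‖a p.1‖ * ‖b p.2‖ :=
    (L1_summable a).tsum_mul_tsum (L1_summable b)
      ((L1_summable a).mul_of_nonneg (L1_summable b) (fun _ => norm_nonneg _)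
      (fun _ => norm_nonneg _))
  have h3 : ∑' p : ℤ × ℤ, ‖a p.2‖ * ‖b (p.1 - p.2)‖ = ∑' p : ℤ × ℤ, ‖a p.1‖ * ‖b p.2‖ :=
    shear.tsum_eq fun p => ‖a p.1‖ * ‖b p.2‖
  have h4 : ∑' n, ‖conv0 a b n‖ ≤ ∑' n, ∑' m, ‖a m‖ * ‖b (n - m)‖ :=
    (L1_summable (conv0 a b)).tsum_le_tsum (conv_le a b) (conv_summable a b).prod
  rw [one_mul, L1_norm (conv0 a b), L1_norm a, L1_norm b, h2, ← h3, h1]
  exact h4

noncomputable def conv : L1 →L[ℂ] L1 →L[ℂ] L1 :=
  (LinearMap.mk₂ ℂ conv0 conv0_add_left conv0_smul_left conv0_add_right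
    conv0_smul_right).mkContinuous₂ 1 conv0_norm

noncomputable def dotA : StrongDual ℂ L1 →L[ℂ] L1 →L[ℂ] StrongDual ℂ L1 :=
  ((compL ℂ L1 (L1 →L[ℂ] L1) (StrongDual ℂ L1)).flip conv).comp (compL ℂ L1 L1 ℂ)

noncomputable def dotB (Ψ : StrongDual ℂ (StrongDual ℂ L1)) :
    StrongDual ℂ L1 →L[ℂ] StrongDual ℂ L1 :=
  (compL ℂ L1 (StrongDual ℂ L1) ℂ Ψ).comp dotA

noncomputable def arens (Φ Ψ : StrongDual ℂ (StrongDual ℂ L1)) : StrongDual ℂ (StrongDual ℂ L1) :=
  Φ.comp (dotB Ψ)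

noncomputable def dl (n : ℤ) : L1 := lp.single 1 n 1

theorem dotA_apply (f : StrongDual ℂ L1) (a b : L1) : dotA f a b = f (conv a b) := rfl
theorem dotB_apply (Ψ : StrongDual ℂ (StrongDual ℂ L1)) (f : StrongDual ℂ L1) (a : L1) :
    dotB Ψ f a = Ψ (dotA f a) := rfl
theorem arens_apply (Φ Ψ : StrongDual ℂ (StrongDual ℂ L1)) (f : StrongDual ℂ L1) :
    arens Φ Ψ f = Φ (dotB Ψ f) := rfl

theorem L1_ext {F : Type} [NormedAddCommGroup F] [NormedSpace ℂ F] {u v : L1 →L[ℂ] F}
    (h : ∀ n, u (dl n) = v (dl n)) : u = v :=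
  lp.ext_continuousLinearMap (by norm_num) fun n => ContinuousLinearMap.ext_ring (h n)

theorem conv_dl (m n : ℤ) : conv (dl m) (dl n) = dl (m + n) := by
  ext k
  show ∑' j, dl m j * dl n (k - j) = _
  rw [tsum_eq_single m fun j hj => by simp [dl, lp.single_apply, Pi.single_apply, hj]]
  simp only [dl, lp.single_apply, Pi.single_apply, if_true, one_mul]
  congr 1
  exact propext ⟨fun h => by omega, fun h => by omega⟩

theorem conv_assoc (a b c : L1) : conv (conv a b) c = conv a (conv b c) := by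
  have h1 : ∀ m n c, conv (conv (dl m) (dl n)) c = conv (dl m) (conv (dl n) c) := fun m n c =>
    congrArg (fun u : L1 →L[ℂ] L1 => u c) (L1_ext (u := conv (conv (dl m) (dl n)))
      (v := (conv (dl m)).comp (conv (dl n))) fun k => by
        simp only [conv_dl, comp_apply, add_assoc])
  have h2 : ∀ m b c, conv (conv (dl m) b) c = conv (dl m) (conv b c) := fun m b c =>
    congrArg (fun u : L1 →L[ℂ] L1 => u b) (L1_ext (u := (conv.flip c).comp (conv (dl m)))
      (v := (conv (dl m)).comp (conv.flip c)) fun k => h1 m k c)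
  exact congrArg (fun u : L1 →L[ℂ] L1 => u a) (L1_ext (u := (conv.flip c).comp (conv.flip b))
      (v := conv.flip (conv b c)) fun k => h2 k b c)

theorem conv_one_left (a : L1) : conv (dl 0) a = a :=
  congrArg (fun u : L1 →L[ℂ] L1 => u a) (L1_ext (u := conv (dl 0))
    (v := ContinuousLinearMap.id ℂ L1) fun k => by simp [conv_dl])

theorem conv_one_right (a : L1) : conv a (dl 0) = a :=
  congrArg (fun u : L1 →L[ℂ] L1 => u a) (L1_ext (u := conv.flip (dl 0))
    (v := ContinuousLinearMap.id ℂ L1) fun k => by simp [conv_dl])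

theorem dotB_dotA (Θ : StrongDual ℂ (StrongDual ℂ L1)) (f : StrongDual ℂ L1) (a : L1) :
    dotB Θ (dotA f a) = dotA (dotB Θ f) a := by
  refine ContinuousLinearMap.ext fun b => ?_
  rw [dotB_apply, dotA_apply, dotB_apply]
  congr 1
  refine ContinuousLinearMap.ext fun c => ?_
  rw [dotA_apply, dotA_apply, dotA_apply, conv_assoc]

def Bidual : Type := StrongDual ℂ (StrongDual ℂ L1)

theorem arens_assoc (Φ Ψ Θ : StrongDual ℂ (StrongDual ℂ L1)) :
    arens (arens Φ Ψ) Θ = arens Φ (arens Ψ Θ) := by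
  refine ContinuousLinearMap.ext fun f => ?_
  rw [arens_apply, arens_apply, arens_apply]
  congr 1
  refine ContinuousLinearMap.ext fun a => ?_
  rw [dotB_apply, dotB_apply, arens_apply, dotB_dotA]

theorem arens_one_left (Φ : StrongDual ℂ (StrongDual ℂ L1)) :
    arens (NormedSpace.inclusionInDoubleDual ℂ L1 (dl 0)) Φ = Φ := by
  refine ContinuousLinearMap.ext fun f => ?_
  show Φ (dotA f (dl 0)) = _
  congr 1
  refine ContinuousLinearMap.ext fun a => ?_
  rw [dotA_apply, conv_one_left]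

theorem arens_one_right (Φ : StrongDual ℂ (StrongDual ℂ L1)) :
    arens Φ (NormedSpace.inclusionInDoubleDual ℂ L1 (dl 0)) = Φ := by
  refine ContinuousLinearMap.ext fun f => ?_
  rw [arens_apply]
  congr 1
  refine ContinuousLinearMap.ext fun a => ?_
  show f (conv a (dl 0)) = _
  rw [conv_one_right]

theorem arens_add_left (Φ Φ' Ψ : StrongDual ℂ (StrongDual ℂ L1)) :
    arens (Φ + Φ') Ψ = arens Φ Ψ + arens Φ' Ψ := rfl

theorem arens_add_right (Φ Ψ Ψ' : StrongDual ℂ (StrongDual ℂ L1)) :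
    arens Φ (Ψ + Ψ') = arens Φ Ψ + arens Φ Ψ' := by
  refine ContinuousLinearMap.ext fun f => ?_
  show Φ (dotB (Ψ + Ψ') f) = Φ (dotB Ψ f) + Φ (dotB Ψ' f)
  rw [← map_add]; rfl

theorem arens_zero_left (Ψ : StrongDual ℂ (StrongDual ℂ L1)) : arens 0 Ψ = 0 := rfl

theorem arens_zero_right (Φ : StrongDual ℂ (StrongDual ℂ L1)) : arens Φ 0 = 0 := by
  refine ContinuousLinearMap.ext fun f => ?_
  show Φ (dotB 0 f) = 0
  rw [← map_zero Φ]; rfl

noncomputable instance : Ring Bidual :=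
  { (inferInstance : AddCommGroup (StrongDual ℂ (StrongDual ℂ L1))) with
    mul := arens
    one := NormedSpace.inclusionInDoubleDual ℂ L1 (dl 0)
    mul_assoc := arens_assoc
    one_mul := arens_one_left
    mul_one := arens_one_right
    left_distrib := arens_add_right
    right_distrib := arens_add_left
    zero_mul := arens_zero_left
    mul_zero := arens_zero_right }

end Pool.Agent.H.MP_67b4ec_an
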